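import Pool.Agent.Helper382_X15.Tower

/-!
# The rank form of the Birch and Swinnerton-Dyer conjecture for fixed non-CM curves over a positive
# proportion of quadratic extensions, and over all the layers of infinite multiquadratic fields

`E_M : y² = x³ - 12987 M² x - 263466 M³` is the quadratic twist by `M` of `X_0(15)`, an elliptic curve without
complex multiplication, and `Cls` is the set of ALL the squarefree numbers `D ≡ 1` or `49` modulo `60`, with
no condition on the prime factors: a set of positive density `5 / (16 π²)`. Let `k = ℚ(√d_1, …, √d_n)` be a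
field of degree `2ⁿ`. The pair `(M, d)` is good if all the `2ⁿ` numbers `M ∏_{i ∈ T} d_i` are up to squares
numbers `D ≠ 1` of the class with `E_D(ℚ)` finite and `Ш(E_D/ℚ)[2] = 0`. Let `𝒩` be a finite nonempty set of
numbers `M` for which `(M, d)` is good, the `E_M`, `M ∈ 𝒩`, not isomorphic over `k`. The curves are fixed, the
field varies. Let `c = ∏_{i ≥ 1} (1 - 2^{-i}) = 0.2887...`.
* For exactly the proportion `c ^ (|𝒩| 2ⁿ)` of the `D` of the class the same holds for `(d, D)`, that is over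
  the field `k(√D)` of degree `2ⁿ⁺¹`. For these `D`, so for at least `(5 c ^ (|𝒩| 2ⁿ) / (16 π²) - ε) X` of the
  numbers `D ≤ X`, the rank form of the conjecture holds for all the `E_M`, `M ∈ 𝒩`, over `k(√D)`: the
  L-function is entire, its order at the centre is the rank of `E_M(k(√D))`, both are zero.
* There are infinite multiquadratic extensions `k_∞ = k(√D_1, √D_2, …)` of `k`, with all the `D_i` in the class,
  such that the rank form of the conjecture holds, with order and rank zero, for all the `E_M`, `M ∈ 𝒩`, over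
  all the finite extensions `ℚ(√f_1, …, √f_r)` of `ℚ` in `k_∞`, the `f_j` being products of the `d_i` and
  `D_i`; and all the points of `E_M(k_∞)`, `M ∈ 𝒩`, are torsion points.
* For `n = 0`: exactly the proportion `c` of the `M` of the class is good.

The joint law is in `Pool/Agent/H735X` (see `MP_696deb_nt/JointProportionX15`), the single curve is the project
X15 of helper757 (`MP_696deb_nt/TwoConverseX15`), the L-functions over the fields are from helper735's
`MP_50bb2e_nt/MultiquadraticX15` (the twists of a fixed representation over a fixed field).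
-/

set_option autoImplicit false

open NumberField Filter Topology

namespace Pool.Agent.Results.MP_1a91b9_nt.VaryingFieldsX15

open Pool.Agent.Results.MP_50bb2e_nt.MultiquadraticX15 (Cls UpTo InCls Ind RankZeroShaTwo GoodPair
  IsMultiquadratic IsL c num)
open Pool.Agent.Helper382_X15 (Curve GoodFamily)

open Classical in
/-- the rank form of the conjecture for `E_M` over `K`, with order and rank zero: the `L`-function of
`E_M` over `K` (without the Euler factors at the places `v ∣ 30 M m`) is entire, its order of vanishing at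
`s = 1` is the rank of `E_M(K)`, and the group `E_M(K)` is finite -/
def RankForm (K : Type) [Field K] [NumberField K] (M m : ℤ) : Prop :=
  (∃ F : ℂ → ℂ, IsL K M m F) ∧
  (∀ F : ℂ → ℂ, IsL K M m F →
    analyticOrderAt F 1 = ((Module.finrank ℤ (Curve K M).toAffine.Point : ℕ) : ℕ∞)) ∧
  Module.finrank ℤ (Curve K M).toAffine.Point = 0 ∧ Finite (Curve K M).toAffine.Point

/-- the curves `E_M`, `M ∈ 𝒩`, are not isomorphic over `ℚ(√d_1, …, √d_n)` -/
def NonIso {n : ℕ} (𝒩 : Finset ℤ) (d : Fin n → ℤ) : Prop :=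
  ∀ M ∈ 𝒩, ∀ M' ∈ 𝒩, M ≠ M' → ∀ T : Finset (Fin n), ¬ IsSquare (M * M' * ∏ i ∈ T, d i)

/-- the field `ℚ(√d_1, …, √d_n)` has degree `2ⁿ`, all pairs `(M, d)`, `M ∈ 𝒩`, are good, and the curves
`E_M`, `M ∈ 𝒩`, are not isomorphic over the field -/
def Good {n : ℕ} (𝒩 : Finset ℤ) (d : Fin n → ℤ) : Prop :=
  Ind d ∧ (∀ M ∈ 𝒩, GoodPair M d) ∧ NonIso 𝒩 d

theorem finrank_zero_of_finite {G : Type} [AddCommGroup G] (h : Finite G) :
    Module.finrank ℤ G = 0 := by
  have h1 : Module.rank ℤ G = 0 := by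
    rw [rank_eq_zero_iff]
    intro x
    have h2 : IsOfFinAddOrder x := isOfFinAddOrder_of_finite x
    obtain ⟨n, hn, hx⟩ := isOfFinAddOrder_iff_nsmul_eq_zero.1 h2
    exact ⟨n, by exact_mod_cast hn.ne', by exact_mod_cast hx⟩
  rw [Module.finrank, h1, map_zero]

theorem rankForm {n : ℕ} {d : Fin n → ℤ} {M : ℤ} (hd : Ind d) (h : GoodPair M d)
    (K : Type) [Field K] [NumberField K] (hK : IsMultiquadratic d K) :
    Module.finrank ℚ K = 2 ^ n ∧ RankForm K M (∏ i, d i) := by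
  obtain ⟨h1, ⟨h2, h3⟩, h4⟩ := Pool.Agent.Results.MP_50bb2e_nt.MultiquadraticX15.field_zero hd h K hK
  have h5 : Finite (Curve K M).toAffine.Point := h4
  have h6 := @finrank_zero_of_finite _ (@WeierstrassCurve.Affine.Point.instAddCommGroup K _
    (Curve K M).toAffine (Classical.decEq K)) h5
  refine ⟨h1, h2, fun F hF => ?_, h6, h5⟩
  have h7 : analyticOrderAt F 1 = 0 := (hF.1.analyticAt 1).analyticOrderAt_eq_zero.2 (h3 F hF)
  rw [h7, h6, Nat.cast_zero]

theorem c_pos : 0 < c := by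
  obtain ⟨-, -, -, g2, -⟩ := Pool.Agent.Results.MP_50bb2e_nt.MultiquadraticX15.result
  linarith

theorem prop_zero : Tendsto (fun X : ℕ => (num (fun D => GoodPair (D : ℤ) (Fin.elim0 : Fin 0 → ℤ)) X : ℝ) /
    (num (fun _ => True) X : ℝ)) atTop (𝓝 c) := by
  have h := Pool.Agent.Results.MP_50bb2e_nt.MultiquadraticX15.prop_good (n := 0) (M := 1)
    (d := (Fin.elim0 : Fin 0 → ℤ)) (fun T hT => by
      obtain ⟨i, -⟩ := hT
      exact i.elim0) ⟨1, Pool.Agent.Results.MP_50bb2e_nt.MultiquadraticX15.cls_one, 1, one_ne_zero,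
        by norm_num⟩ (fun i => i.elim0)
  rw [pow_zero, pow_one] at h
  refine h.congr fun X => ?_
  simp only [one_mul]

open Classical in
/-- **The rank form of the conjecture for fixed curves over varying fields.** -/
theorem result :
    (∀ (n : ℕ) (M : ℤ) (d : Fin n → ℤ), Ind d → GoodPair M d →
      ∀ (K : Type) [Field K] [NumberField K], IsMultiquadratic d K →
        Module.finrank ℚ K = 2 ^ n ∧ RankForm K M (∏ i, d i)) ∧
    (∀ (n : ℕ) (𝒩 : Finset ℤ) (d : Fin n → ℤ), 𝒩.Nonempty → Good 𝒩 d →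
      Tendsto (fun X : ℕ => (num (fun D => Good 𝒩 (Fin.snoc d (D : ℤ) : Fin (n + 1) → ℤ)) X : ℝ) /
        (num (fun _ => True) X : ℝ)) atTop (𝓝 (c ^ (𝒩.card * 2 ^ n))) ∧
      ∀ ε : ℝ, 0 < ε → ∀ᶠ X : ℕ in atTop,
        (5 / (16 * Real.pi ^ 2) * c ^ (𝒩.card * 2 ^ n) - ε) * X ≤
        (num (fun D => ∀ (K : Type) [Field K] [NumberField K],
          IsMultiquadratic (Fin.snoc d (D : ℤ) : Fin (n + 1) → ℤ) K →
          Module.finrank ℚ K = 2 ^ (n + 1) ∧ ∀ M ∈ 𝒩,
          RankForm K M (∏ i, (Fin.snoc d (D : ℤ) : Fin (n + 1) → ℤ) i)) X : ℝ)) ∧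
    (∀ (n : ℕ) (𝒩 : Finset ℤ) (d : Fin n → ℤ), 𝒩.Nonempty → Good 𝒩 d →
      ∃ e : ℕ → ℤ, (∀ i : Fin n, e i = d i) ∧ (∀ i, n ≤ i → ∃ D : ℕ, Cls D ∧ e i = D) ∧
        (∀ m, n ≤ m → Good 𝒩 (fun i : Fin m => e i)) ∧
        (∀ (r : ℕ) (T : Fin r → Finset ℕ), Ind (fun j => ∏ i ∈ T j, e i) →
          ∀ (K : Type) [Field K] [NumberField K], IsMultiquadratic (fun j => ∏ i ∈ T j, e i) K →
            Module.finrank ℚ K = 2 ^ r ∧ ∀ M ∈ 𝒩, RankForm K M (∏ j, ∏ i ∈ T j, e i)) ∧
        ∀ (L : Type) [Field L] [Algebra ℚ L] (x : ℕ → L), (∀ i, x i ^ 2 = (e i : L)) →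
          IntermediateField.adjoin ℚ (Set.range x) = ⊤ →
          ∀ M ∈ 𝒩, ∀ P : (Curve L M).toAffine.Point, IsOfFinAddOrder P) ∧
    Tendsto (fun X : ℕ => (num (fun D => GoodPair (D : ℤ) (Fin.elim0 : Fin 0 → ℤ)) X : ℝ) /
      (num (fun _ => True) X : ℝ)) atTop (𝓝 c) ∧
    Tendsto (fun X : ℕ => (num (fun _ => True) X : ℝ) / X) atTop (𝓝 (5 / (16 * Real.pi ^ 2))) ∧
    0.2887 < c ∧ c < 0.2888 := by
  obtain ⟨-, -, -, g2, g3⟩ := Pool.Agent.Results.MP_50bb2e_nt.MultiquadraticX15.result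
  refine ⟨fun n M d hd h K _ _ hK => rankForm hd h K hK, fun n 𝒩 d h𝒩 h => ?_,
    fun n 𝒩 d h𝒩 h => ?_, prop_zero, Pool.Agent.Helper382_X15.num_dens, g2, g3⟩
  · have h1 := Pool.Agent.Helper382_X15.prop_fam (𝒩 := 𝒩) (d := d) h h𝒩
    refine ⟨h1, fun ε hε => (Pool.Agent.Helper382_X15.low (fun D _ h => ?_) h1 hε).2⟩
    intro K _ _ hK
    obtain ⟨M₀, hM₀⟩ := h𝒩
    exact ⟨(rankForm h.1 (h.2.1 M₀ hM₀) K hK).1, fun M hM => (rankForm h.1 (h.2.1 M hM) K hK).2⟩
  · obtain ⟨e, h1, h2, h3⟩ := Pool.Agent.Helper382_X15.exists_tower (𝒩 := 𝒩) (d := d) h h𝒩 c_pos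
    have hI : ∀ m, n ≤ m → Ind (fun i : Fin m => e i) := fun m hm => (h3 m hm).1
    have he0 : ∀ i, e i ≠ 0 := Pool.Agent.Helper382_X15.ne_zero_of hI
    refine ⟨e, h1, h2, h3, fun r T hT K _ _ hK => ?_, fun L _ _ x hx hgen M hM P => ?_⟩
    · have h4 : ∀ M ∈ 𝒩, GoodPair M (fun j => ∏ i ∈ T j, e i) := fun M hM =>
        Pool.Agent.Helper382_X15.goodPair_prod he0 (fun m hm => (h3 m hm).2.1 M hM) T
      obtain ⟨M₀, hM₀⟩ := h𝒩
      exact ⟨(rankForm hT (h4 M₀ hM₀) K hK).1, fun M hM => (rankForm hT (h4 M hM) K hK).2⟩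
    · exact Pool.Agent.Helper382_X15.torsion hI (fun m hm => (h3 m hm).2.1 M hM) L x hx hgen P

end Pool.Agent.Results.MP_1a91b9_nt.VaryingFieldsX15
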